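import Pool.Agent.Y248.FE.Stm
set_option autoImplicit false

/-! # Job 4915 (FE-DD): duality between two measures -/

namespace Pool.Agent.Y737.FE

open MeasureTheory Set Metric Complex Filter
open scoped ENNReal RealInnerProductSpace Topology FourierTransform
open Pool.Agent.H789R2.FR (E)
open Pool.Agent.Y248.FB Pool.Agent.Y248.FC Pool.Agent.Y248.FE

variable {n : ℕ}

theorem BB_int {g : E n → ℂ} (hg : BB g) {μ : Measure (E n)} (hμ : Fb μ) : Integrable g μ := by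
  obtain ⟨hm, ⟨M, hM⟩, ρ, hρ⟩ := hg
  have h1 : Integrable ((closedBall (0 : E n) ρ).indicator fun _ => M) μ :=
    (integrableOn_const (hμ 0 ρ).ne).integrable_indicator measurableSet_closedBall
  refine h1.mono' hm.aestronglyMeasurable (Eventually.of_forall fun x => ?_)
  by_cases hx : x ∈ closedBall (0 : E n) ρ
  · rw [indicator_of_mem hx]
    exact hM x
  · rw [indicator_of_notMem hx, hρ x hx, norm_zero]

theorem Fm_restr {g : E n → ℂ} {S : Set (E n)} (hg : ∀ x, x ∉ S → g x = 0) (μ : Measure (E n)) :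
    Fm g (μ.restrict S) = Fm g μ := by
  funext ξ
  unfold Fm
  exact setIntegral_eq_integral_of_forall_compl_eq_zero fun x hx => by rw [hg x hx]; ring

theorem ex_meas : Measurable fun z : E n × E n => cexp (((2 * Real.pi * ⟪z.2, z.1⟫ : ℝ) : ℂ) * I) := by
  have h1 : Continuous fun z : E n × E n => cexp (((2 * Real.pi * ⟪z.2, z.1⟫ : ℝ) : ℂ) * I) := by
    fun_prop
  exact h1.measurable

theorem Fm_meas' (ν : Measure (E n)) [IsFiniteMeasure ν] {g : E n → ℂ} (hg : Measurable g) :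
    Measurable (Fm g ν) := by
  have h : Measurable fun z : E n × E n => g z.2 *
      cexp (((2 * Real.pi * ⟪z.2, z.1⟫ : ℝ) : ℂ) * I) := (hg.comp measurable_snd).mul ex_meas
  exact (h.stronglyMeasurable.integral_prod_right' (ν := ν)).measurable

theorem Fm_measBB {g : E n → ℂ} (hg : BB g) {μ : Measure (E n)} (hμ : Fb μ) : Measurable (Fm g μ) := by
  obtain ⟨hm, -, ρ, hρ⟩ := hg
  have : IsFiniteMeasure (μ.restrict (closedBall 0 ρ)) := ⟨by rw [Measure.restrict_apply_univ]; exact hμ 0 ρ⟩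
  rw [← Fm_restr hρ μ]
  exact Fm_meas' _ hm

theorem Fm_bdd (g : E n → ℂ) (μ : Measure (E n)) (ξ : E n) : ‖Fm g μ ξ‖ ≤ ∫ x, ‖g x‖ ∂μ := by
  unfold Fm
  refine (norm_integral_le_integral_norm _).trans (le_of_eq ?_)
  refine integral_congr_ae (Eventually.of_forall fun x => ?_)
  simp only [norm_mul, Complex.norm_exp_ofReal_mul_I, mul_one]

/-- the Fourier transform is symmetric -/
theorem flip {φ g : E n → ℂ} (hφ : BB φ) (hg : BB g) {μ ν : Measure (E n)} (hμ : Fb μ) (hν : Fb ν) :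
    ∫ x, Fm φ μ x * g x ∂ν = ∫ ξ, φ ξ * Fm g ν ξ ∂μ := by
  obtain ⟨hm1, ⟨M1, hM1⟩, ρ1, hρ1⟩ := hφ
  obtain ⟨hm2, ⟨M2, hM2⟩, ρ2, hρ2⟩ := hg
  have i1 : IsFiniteMeasure (μ.restrict (closedBall 0 ρ1)) := ⟨by rw [Measure.restrict_apply_univ]; exact hμ 0 ρ1⟩
  have i2 : IsFiniteMeasure (ν.restrict (closedBall 0 ρ2)) := ⟨by rw [Measure.restrict_apply_univ]; exact hν 0 ρ2⟩
  have e1 : ∫ x, Fm φ μ x * g x ∂ν = ∫ x, Fm φ μ x * g x ∂(ν.restrict (closedBall 0 ρ2)) :=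
    (setIntegral_eq_integral_of_forall_compl_eq_zero fun x hx => by rw [hρ2 x hx, mul_zero]).symm
  have e2 : ∫ ξ, φ ξ * Fm g ν ξ ∂μ = ∫ ξ, φ ξ * Fm g ν ξ ∂(μ.restrict (closedBall 0 ρ1)) :=
    (setIntegral_eq_integral_of_forall_compl_eq_zero fun x hx => by rw [hρ1 x hx, zero_mul]).symm
  rw [e1, e2, ← Fm_restr hρ1 μ, ← Fm_restr hρ2 ν]
  set μ' := μ.restrict (closedBall (0 : E n) ρ1)
  set ν' := ν.restrict (closedBall (0 : E n) ρ2)
  have hint : Integrable (fun z : E n × E n => φ z.2 * cexp (((2 * Real.pi * ⟪z.2, z.1⟫ : ℝ) : ℂ) * I) * g z.1)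
      (ν'.prod μ') := by
    refine Integrable.of_bound (C := M1 * M2)
      (((hm1.comp measurable_snd).mul ex_meas).mul (hm2.comp measurable_fst)).aestronglyMeasurable
      (Eventually.of_forall fun z => ?_)
    rw [norm_mul, norm_mul, Complex.norm_exp_ofReal_mul_I, mul_one]
    exact mul_le_mul (hM1 _) (hM2 _) (norm_nonneg _) ((norm_nonneg _).trans (hM1 0))
  have e3 : ∀ x, Fm φ μ' x * g x = ∫ ξ, φ ξ * cexp (((2 * Real.pi * ⟪ξ, x⟫ : ℝ) : ℂ) * I) * g x ∂μ' := by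
    intro x
    unfold Fm
    rw [integral_mul_const]
  simp only [e3]
  rw [integral_integral_swap hint]
  refine integral_congr_ae (Eventually.of_forall fun ξ => ?_)
  simp only [Fm]
  rw [← integral_const_mul]
  refine integral_congr_ae (Eventually.of_forall fun x => ?_)
  simp only
  rw [real_inner_comm x ξ]
  ring

/-- the function whose transform is the mean -/
noncomputable def Ph (δ : ℝ) (f : E n → ℂ) (μ : Measure (E n)) (ξ : E n) : ℂ := ml δ 1 ξ * Fm f μ (-ξ)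

theorem Ph_BB {δ : ℝ} (hδ : 0 ≤ δ) {f : E n → ℂ} (hf : BB f) {μ : Measure (E n)} (hμ : Fb μ) : BB (Ph δ f μ) := by
  refine ⟨(Pool.Agent.Y356.FB.ml_meas δ 1).mul ((Fm_measBB hf hμ).comp measurable_neg),
    ⟨1 * ∫ x, ‖f x‖ ∂μ, fun ξ => ?_⟩, 1, fun ξ hξ => ?_⟩
  · unfold Ph
    rw [norm_mul]
    exact mul_le_mul (Pool.Agent.Y356.FB.ml_bdd hδ ξ) (Fm_bdd f μ _) (norm_nonneg _) zero_le_one
  · unfold Ph ml
    rw [mem_closedBall_zero_iff] at hξ
    rw [if_neg (by linarith), zero_mul]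

theorem Fb_vol : Fb (volume : Measure (E n)) := fun _ _ => measure_closedBall_lt_top

theorem Sn_eq (δ : ℝ) (f : E n → ℂ) (μ : Measure (E n)) : Sn δ f μ = Fm (Ph δ f μ) volume := by
  funext x
  unfold Sn Fm Ph
  refine integral_congr_ae (Eventually.of_forall fun ξ => ?_)
  simp only
  rw [real_inner_comm x ξ]
  rfl

/-- symmetry of the means -/
theorem Sn_pair {δ : ℝ} (hδ : 0 ≤ δ) {f g : E n → ℂ} (hf : BB f) (hg : BB g) {μ₁ μ₂ : Measure (E n)}
    (h1 : Fb μ₁) (h2 : Fb μ₂) : ∫ x, Sn δ f μ₁ x * g x ∂μ₂ = ∫ x, Sn δ g μ₂ x * f x ∂μ₁ := by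
  rw [Sn_eq, Sn_eq, flip (Ph_BB hδ hf h1) hg Fb_vol h2, flip (Ph_BB hδ hg h2) hf Fb_vol h1,
    ← integral_neg_eq_self]
  refine integral_congr_ae (Eventually.of_forall fun ξ => ?_)
  simp only [Ph, Pool.Agent.Y356.FB.ml_neg, neg_neg]
  ring

theorem absorb' {J X : ℝ≥0∞} (hJ : J ≠ ∞) {p : ℝ} (hp : 1 ≤ p)
    (h : J ≤ X * J ^ ((p - 1) / p)) : J ≤ X ^ p := by
  have hp0 : 0 < p := by linarith
  rcases eq_or_ne J 0 with h0 | h0
  · rw [h0]; exact zero_le
  have e1 : J = J ^ (1 / p) * J ^ ((p - 1) / p) := by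
    rw [← ENNReal.rpow_add _ _ h0 hJ, ← add_div, show 1 + (p - 1) = p by ring, div_self hp0.ne',
      ENNReal.rpow_one]
  have h1 : J ^ (1 / p) * J ^ ((p - 1) / p) ≤ X * J ^ ((p - 1) / p) := by rw [← e1]; exact h
  have h3 : J ^ ((p - 1) / p) ≠ 0 := by
    intro h4
    rcases ENNReal.rpow_eq_zero_iff.1 h4 with h5 | h5
    · exact h0 h5.1
    · exact hJ h5.1
  have h2 : J ^ (1 / p) ≤ X := (ENNReal.mul_le_mul_iff_left h3
    (ENNReal.rpow_ne_top_of_nonneg (by apply div_nonneg <;> linarith) hJ)).1 h1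
  calc J = (J ^ (1 / p)) ^ p := by
        rw [← ENNReal.rpow_mul, one_div_mul_cancel hp0.ne', ENNReal.rpow_one]
    _ ≤ X ^ p := ENNReal.rpow_le_rpow h2 hp0.le

theorem t_dd (n : ℕ) : S_DD n := by
  intro δ p q C hδ hp hpq hC μ₁ μ₂ hμ₁ hμ₂ hE f hf
  have hpq' : p.HolderConjugate q := by
    rw [Real.holderConjugate_iff]
    exact ⟨hp, by simpa [one_div] using hpq⟩
  have hp0 : 0 < p := by linarith
  have hp1 : 0 < p - 1 := by linarith
  have hq0 : 0 < q := hpq'.symm.pos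
  have hqp : (p - 1) * q = p := by
    have := hpq'.sub_one_mul_conj
    linarith
  have hU : (⋃ N : ℕ, closedBall (0 : E n) N) = univ := by
    ext x
    simp only [mem_iUnion, mem_closedBall_zero_iff, mem_univ, iff_true]
    exact exists_nat_ge ‖x‖
  have hmono : Monotone fun N : ℕ => closedBall (0 : E n) N := fun a b hab =>
    closedBall_subset_closedBall (by exact_mod_cast hab)
  rw [← setLIntegral_univ, ← hU, setLIntegral_iUnion_of_directed _
    (hmono.directed_le)]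
  refine iSup_le fun L => ?_
  set B := closedBall (0 : E n) L with hB
  have hBm : MeasurableSet B := isClosed_closedBall.measurableSet
  have : IsFiniteMeasure (μ₂.restrict B) := ⟨by rw [Measure.restrict_apply_univ]; exact hμ₂ 0 L⟩
  have hPh := Ph_BB hδ hf hμ₁
  set K : ℝ := ∫ x, ‖Ph δ f μ₁ x‖ with hKd
  have hK : 0 ≤ K := integral_nonneg fun _ => norm_nonneg _
  have hKb : ∀ x, ‖Sn δ f μ₁ x‖ ≤ K := fun x => by
    rw [Sn_eq]
    exact Fm_bdd _ _ x
  have hFm : Measurable (Sn δ f μ₁) := by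
    rw [Sn_eq]
    exact Fm_measBB hPh Fb_vol
  set F := Sn δ f μ₁ with hF
  set g : E n → ℂ := B.indicator fun x => (starRingEnd ℂ) (F x) * ((‖F x‖ ^ (p - 2) : ℝ) : ℂ) with hg
  have hgm : Measurable g := by
    refine Measurable.indicator ?_ hBm
    have h2 : Measurable fun x => (starRingEnd ℂ) (F x) := Complex.continuous_conj.measurable.comp hFm
    exact h2.mul (Complex.measurable_ofReal.comp (hFm.norm.pow_const _))
  have hnorm : ∀ x ∈ B, ‖g x‖ = ‖F x‖ ^ (p - 1) := by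
    intro x hx
    rw [hg, indicator_of_mem hx]
    exact Pool.Agent.Y356.FB.norm_aux hp _
  have hg0 : ∀ x, x ∉ B → g x = 0 := fun x hx => indicator_of_notMem hx _
  have hgb : ∀ x, ‖g x‖ ≤ K ^ (p - 1) := by
    intro x
    by_cases hx : x ∈ B
    · rw [hnorm x hx]
      exact Real.rpow_le_rpow (norm_nonneg _) (hKb x) hp1.le
    · rw [hg0 x hx, norm_zero]
      positivity
  have hgB : BB g := ⟨hgm, ⟨_, hgb⟩, L, hg0⟩
  have h1 := hE g hgB
  set J : ℝ≥0∞ := ∫⁻ x in B, ‖F x‖ₑ ^ p ∂μ₂ with hJ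
  have hen : ∀ x, ENNReal.ofReal (‖F x‖ ^ p) = ‖F x‖ₑ ^ p := by
    intro x
    rw [← ofReal_norm, ENNReal.ofReal_rpow_of_nonneg (norm_nonneg _) hp0.le]
  have hFi : Integrable (fun x => ‖F x‖ ^ p) (μ₂.restrict B) := by
    refine Integrable.of_bound (C := K ^ p) (hFm.norm.pow_const _).aestronglyMeasurable
      (Eventually.of_forall fun x => ?_)
    rw [Real.norm_of_nonneg (by positivity)]
    exact Real.rpow_le_rpow (norm_nonneg _) (hKb x) hp0.le
  have hJe : ENNReal.ofReal (∫ x in B, ‖F x‖ ^ p ∂μ₂) = J := by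
    rw [ofReal_integral_eq_lintegral_ofReal hFi (Eventually.of_forall fun x => by positivity)]
    exact lintegral_congr fun x => hen x
  have hJf : J ≠ ∞ := by rw [← hJe]; exact ENNReal.ofReal_ne_top
  have h4 : ‖∫ x, F x * g x ∂μ₂‖ₑ = J := by
    have e0 : ∫ x, F x * g x ∂μ₂ = ∫ x in B, F x * g x ∂μ₂ :=
      (setIntegral_eq_integral_of_forall_compl_eq_zero fun x hx => by rw [hg0 x hx, mul_zero]).symm
    have e1 : ∫ x in B, F x * g x ∂μ₂ = ((∫ x in B, ‖F x‖ ^ p ∂μ₂ : ℝ) : ℂ) := by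
      rw [← integral_complex_ofReal]
      refine setIntegral_congr_fun hBm fun x hx => ?_
      simp only [hg]
      rw [indicator_of_mem hx]
      exact Pool.Agent.Y356.FB.conj_mul_aux hp _
    rw [e0, e1, ← hJe, ← ofReal_norm, Complex.norm_real, Real.norm_of_nonneg
      (integral_nonneg fun x => by positivity)]
  have h5 : ∫⁻ x, ‖g x‖ₑ ^ q ∂μ₂ = J := by
    rw [hJ, ← lintegral_indicator hBm]
    refine lintegral_congr fun x => ?_
    by_cases hx : x ∈ B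
    · rw [indicator_of_mem hx, ← ofReal_norm, hnorm x hx,
        ENNReal.ofReal_rpow_of_nonneg (by positivity) hq0.le,
        ← Real.rpow_mul (norm_nonneg _), hqp, hen]
    · rw [indicator_of_notMem hx, hg0 x hx, enorm_zero, ENNReal.zero_rpow_of_pos hq0]
  have hGm : Measurable (Sn δ g μ₂) := by
    rw [Sn_eq]
    exact Fm_measBB (Ph_BB hδ hgB hμ₂) Fb_vol
  have h3 : J ≤ (∫⁻ x, ‖f x‖ₑ ^ p ∂μ₁) ^ (1 / p) * (∫⁻ x, ‖Sn δ g μ₂ x‖ₑ ^ q ∂μ₁) ^ (1 / q) := by
    rw [← h4, hF, Sn_pair hδ hf hgB hμ₁ hμ₂]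
    refine (enorm_integral_le_lintegral_enorm _).trans ?_
    have e2 : ∫⁻ x, ‖Sn δ g μ₂ x * f x‖ₑ ∂μ₁ = ∫⁻ x, ‖f x‖ₑ * ‖Sn δ g μ₂ x‖ₑ ∂μ₁ := by
      refine lintegral_congr fun x => ?_
      rw [enorm_mul, mul_comm]
    rw [e2]
    exact ENNReal.lintegral_mul_le_Lp_mul_Lq _ hpq' hf.1.enorm.aemeasurable hGm.enorm.aemeasurable
  rw [h5] at h1
  have h6 : J ≤ ((∫⁻ x, ‖f x‖ₑ ^ p ∂μ₁) ^ (1 / p) * ENNReal.ofReal C ^ (1 / q)) * J ^ ((p - 1) / p) := by
    refine h3.trans ?_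
    rw [mul_assoc]
    gcongr
    refine (ENNReal.rpow_le_rpow h1 (by positivity)).trans (le_of_eq ?_)
    rw [ENNReal.mul_rpow_of_nonneg _ _ (by positivity)]
    congr 2
    have : 1 / q = 1 - 1 / p := by linarith
    rw [this]
    field_simp
  refine (absorb' hJf hp.le h6).trans (le_of_eq ?_)
  rw [ENNReal.mul_rpow_of_nonneg _ _ hp0.le, ← ENNReal.rpow_mul, ← ENNReal.rpow_mul,
    one_div_mul_cancel hp0.ne', ENNReal.rpow_one, ← ENNReal.ofReal_rpow_of_pos hC, mul_comm]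
  congr 2
  ring

end Pool.Agent.Y737.FE
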